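import Mathlib
import Pool.Agent.T6.H9.SG.Main
import Pool.Agent.Y939.NC.Std
import Pool.Agent.TH167.SH.Fam
import Pool.Agent.TH167.SH.Conv

set_option autoImplicit false

/-!
# Negative curves have canonical degree at least five, or are `(-1)`-curves

Let `X` be the blow-up of the complex projective plane at `s ≥ 4` very general points and `C` an
irreducible curve on `X` with `K C ≤ 4` which is not a `(-1)`-curve. Then `C ^ 2 ≥ K C` and
`C ^ 2 ≥ 0`. In particular the irreducible curves with `C ^ 2 < 0` and `K C ≤ 4` are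
`(-1)`-curves.
-/

namespace Pool.Agent.Results.MP_d3e5c7_ag.CanonicalDegree

open MvPolynomial Pool.Agent.TH167 Pool.Agent.TH167.SHDefs
open Pool.Agent.Results.MP_6e81d8_ag.FixedGenusIsFinite (empty_iff)

theorem result (s : ℕ) (hs : 4 ≤ s) :
    ∃ Z : ℕ → MvPolynomial (Fin s × Fin 2) ℂ, (∀ n, Z n ≠ 0) ∧
      ∀ P : Fin s → Fin 2 → ℂ,
        (∀ n, MvPolynomial.eval (fun ij : Fin s × Fin 2 => P ij.1 ij.2) (Z n) ≠ 0) →
        ∀ (d : ℕ) (w : Fin s → ℕ) (C : MvPolynomial (Fin 3) ℂ), Curve P C d w →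
          interK d w ≤ 4 →
          (¬ MinusOne P C d w → interK d w ≤ inter d w d w ∧ 0 ≤ inter d w d w) ∧
          (inter d w d w < 0 → MinusOne P C d w) := by
  obtain ⟨r, rfl⟩ : ∃ r, s = r + 4 := ⟨s - 4, by omega⟩
  obtain ⟨Z, hZ, h⟩ := SH.exists_fam (Fin (r + 4) × Fin 2)
  refine ⟨Z, hZ, fun P hP0 d w C hC hK => ?_⟩
  have hP := (h _).1 hP0
  have key : ¬ MinusOne P C d w → interK d w ≤ inter d w d w ∧ 0 ≤ inter d w d w := by
    intro hne
    obtain ⟨h1, h2, h3⟩ := SH.curve_iff.1 hC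
    have hne' : ¬ (SH.ip d w d w = -1 ∧ SH.kk d w = 1) := fun h0 =>
      hne ⟨hC, by rw [SH.inter_eq, h0.1], by rw [SH.interK_eq, h0.2]⟩
    obtain ⟨M, hM⟩ : ∃ M, ∀ j, w j ≤ M := ⟨∑ j, w j, fun j =>
      Finset.single_le_sum (fun _ _ => Nat.zero_le _) (Finset.mem_univ j)⟩
    have hw : SH.Few M d w := by
      left
      rw [Finset.filter_false_of_mem fun j _ => not_lt.2 (hM j)]
      simp
    obtain ⟨P1, d1, w1, C1, a1, a2, a3, a4, a5, a6, a7, a8⟩ :=
      Pool.Agent.Y939.NC.std_irr d P hP w hw C h1 h2 h3 hne'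
    obtain ⟨c1, c2, c3⟩ := SH.quad_inv a5
    simp only at c1 c2 c3
    have hwd : ∀ j, w1 j ≤ d1 := fun j => SH.van_le a2.ne_zero a3 (a4 j).1
    have hmem : C1 ∈ W609.CR.VS (fun j => W609.CR.aff (P1 j)) w1 d1 :=
      (SH.mem_VS _ _ _ _).2 ⟨a3, fun j => (a4 j).1⟩
    have hfin := W609.CR.vs_fin (fun j => W609.CR.aff (P1 j)) w1 d1
    have hpos : 0 < Module.finrank ℂ ↥(W609.CR.VS (fun j => W609.CR.aff (P1 j)) w1 d1) :=
      Module.finrank_pos_iff.2 ⟨⟨C1, hmem⟩, 0, fun h7 => a2.ne_zero (congrArg Subtype.val h7)⟩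
    have hK1 : interK d1 w1 ≤ 4 := by
      rw [SH.interK_eq] at hK ⊢
      omega
    have e1 := SH.two_chi d1 w1
    have hv : 0 ≤ virtdim d1 w1 := by
      by_contra hcon
      have h4 := (empty_iff d1 w1).1 (Pool.Agent.T6.H9.SG.empty_small hs a6 (by omega) hK1) P1 a1
      rw [SH.sys_eq] at h4
      omega
    rw [SH.virtdim_eq] at hv
    rw [SH.interK_eq, SH.inter_eq]
    refine ⟨by omega, ?_⟩
    rcases le_or_gt (SH.kk d1 w1) 0 with h5 | h5
    · omega
    · have h6 : 0 ≤ SH.kk d1 w1 := h5.le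
      rw [SH.kk_cast] at h6
      have h7 := SH.red_ip a6 hwd (by omega)
      omega
  refine ⟨key, fun hneg => ?_⟩
  by_contra hne
  have := (key hne).2
  omega

end Pool.Agent.Results.MP_d3e5c7_ag.CanonicalDegree
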