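import Mathlib
import Pool.Agent.T6.H36.NC.Cov
import Pool.Agent.T6.H36.NC.Orb
import Pool.Agent.TH167.SH.Conv
import Pool.Agent.TH167.SH.Defs
import Pool.Agent.TH167.SH.Fam

set_option autoImplicit false

/-!
# Strongly negative curves on the blow-up of the plane at very general points

Let `X` be the blow-up of the complex projective plane at `s ≥ 4` very general points, and let `C` be
an irreducible curve on `X` with `C ^ 2 = -k < 0` which is not a `(-1)`-curve. The class of `C` is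
carried by the Weyl group to the class `e H - ∑ m_i E_i` of an irreducible curve on `X` with
`m_0 ≥ m_1 ≥ …` and `e ≥ m_0 + m_1 + m_2`. Put `t = 3 e - m_0 - ⋯ - m_8` and
`R = m_9 + m_10 + ⋯ = t + K C`. Then

* `m_8 t + k ≤ m_8 (K C)` and `m_8 R + k ≤ 2 m_8 (K C)`; so `R < 2 K C`;
* if `σ` of the `m_i` are positive, then `(σ - 9) k < 2 K C`;
* if `k ≥ 2` then `K C ≥ 6`.

The last part: the labels of the class are `0` or at least `√k`, which leaves three classes with
`K C ≤ 5`; they are proved empty by eliminations modulo `1009` which the kernel verifies.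
-/

namespace Pool.Agent.Results.MP_d3e5c7_ag.StronglyNegativeCurves

open MvPolynomial Pool.Agent.TH167 Pool.Agent.TH167.SHDefs Pool.Agent.T6.H98.WO
open Pool.Agent.T6.H36.NC

/-- The class `d H - ∑ w l E_l`. -/
def cl {s : ℕ} (d : ℕ) (w : Fin s → ℕ) : ℤ × (Fin s → ℤ) := (d, fun l => w l)

theorem result (s : ℕ) (hs : 4 ≤ s) :
    ∃ Z : ℕ → MvPolynomial (Fin s × Fin 2) ℂ, (∀ n, Z n ≠ 0) ∧
      ∀ P : Fin s → Fin 2 → ℂ,
        (∀ n, MvPolynomial.eval (fun ij : Fin s × Fin 2 => P ij.1 ij.2) (Z n) ≠ 0) →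
        ∀ (d : ℕ) (w : Fin s → ℕ) (C : MvPolynomial (Fin 3) ℂ) (k : ℕ), Curve P C d w →
          ¬ MinusOne P C d w → inter d w d w = -(k : ℤ) → 0 < k →
          ∃ (e : ℕ) (m : ℕ → ℕ) (G : MvPolynomial (Fin 3) ℂ) (κ t R : ℕ),
            -- (1) the standard form of the class
            Conj (cl d w) (cl e fun i : Fin s => m i) ∧ Curve P G e (fun i : Fin s => m i) ∧
            Antitone m ∧ (∀ i, s ≤ i → m i = 0) ∧ m 0 + m 1 + m 2 ≤ e ∧
            inter e (fun i : Fin s => m i) e (fun i : Fin s => m i) = -(k : ℤ) ∧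
            interK d w = κ ∧ interK e (fun i : Fin s => m i) = κ ∧
            3 * e = ∑ i ∈ Finset.range 9, m i + t ∧ R = ∑ j ∈ Finset.range s, m (9 + j) ∧
            -- (2) the inequalities
            R = t + κ ∧ m 8 * t + k ≤ m 8 * κ ∧ m 8 * R + k ≤ 2 * m 8 * κ ∧ t < κ ∧ R < 2 * κ ∧
            (∀ q, 0 < m (9 + q) → (q + 1) * k ≤ R ∧ (q + 1) * k < 2 * κ) ∧
            -- (3) self-intersection at most `-2`
            (2 ≤ k → 6 ≤ interK d w) := by
  obtain ⟨r, rfl⟩ : ∃ r, s = r + 4 := ⟨s - 4, by omega⟩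
  obtain ⟨Z, hZ, h⟩ := SH.exists_fam (Fin (r + 4) × Fin 2)
  refine ⟨Z, hZ, fun P hP0 d w C k hC hne hk hk0 => ?_⟩
  have hP := (h _).1 hP0
  obtain ⟨h1, h2, h3⟩ := SH.curve_iff.1 hC
  have hI : R355.NegOrb.Irr P d w := ⟨⟨C, h1, h2, h3⟩, fun h0 =>
    hne ⟨hC, by rw [SH.inter_eq, h0.1], by rw [SH.interK_eq, h0.2]⟩⟩
  have hO : Orb P (cl d w) := ⟨d, w, rfl, hI⟩
  have hself : dot (cl d w) (cl d w) = -(k : ℤ) := hk
  obtain ⟨e, m, b1, b2, b3, b4⟩ := std_orb hP hI
  have b1' : Conj (cl d w) (cl e fun i : Fin (r + 4) => m i) := b1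
  have hO' : Orb P (cl e fun i : Fin (r + 4) => m i) := hO.conj hP b1'
  have hself' : dot (cl e fun i : Fin (r + 4) => m i) (cl e fun i : Fin (r + 4) => m i) =
      -(k : ℤ) := by
    rw [conj_dot b1', hself]
  obtain ⟨e', u', he', hJ⟩ := hO'
  obtain ⟨he1, he2⟩ := Pool.Agent.TH442.NF.cls_inj
    (show Pool.Agent.TH442.NF.cls e (fun i : Fin (r + 4) => m i) =
      Pool.Agent.TH442.NF.cls e' u' from he')
  subst he1
  subst he2
  obtain ⟨G, g1, g2, g3⟩ := hJ.ex
  have hG : Curve P G e (fun i : Fin (r + 4) => m i) := SH.curve_iff.2 ⟨g1, g2, g3⟩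
  obtain ⟨p1, p2, p3⟩ := gaps hP ⟨e, _, rfl, hJ⟩ b2 b3 b4 hk0 hself'
  -- the canonical degree
  have hKinv : interK e (fun i : Fin (r + 4) => m i) = interK d w := by
    have hkc : ∀ {x y : ℤ × (Fin (r + 4) → ℤ)}, Conj x y →
        3 * y.1 - ∑ l, y.2 l = 3 * x.1 - ∑ l, x.2 l := by
      intro x y hxy
      unfold Conj at hxy
      induction hxy with
      | refl => rfl
      | tail _ h2 ih =>
        obtain ⟨a, ha, rfl⟩ := h2
        rw [← ih]
        exact kc_sr ha _
    have := hkc b1'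
    unfold interK
    have e1 : (cl e fun i : Fin (r + 4) => m i).1 = (e : ℤ) := rfl
    have e2 : (cl d w).1 = (d : ℤ) := rfl
    have e3 : ∑ l, (cl e fun i : Fin (r + 4) => m i).2 l = ∑ l : Fin (r + 4), (m l : ℤ) := rfl
    have e4 : ∑ l, (cl d w).2 l = ∑ l, (w l : ℤ) := rfl
    rw [e1, e2, e3, e4] at this
    linarith
  have hsumF : ∀ g : ℕ → ℕ, ∑ i ∈ Finset.range (r + 4), g i = ∑ i : Fin (r + 4), g i := fun g =>
    (Finset.sum_range g)
  have hred : SH.Reduced e (fun i : Fin (r + 4) => m i) := by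
    intro i j l hij hil hjl
    have := SH.three_sorted (v := fun i : Fin (r + 4) => m i) (fun a b hab => b2 hab) hij hil hjl
    have n0 : ((0 : Fin (r + 4)) : ℕ) = 0 := rfl
    have n1 : ((1 : Fin (r + 4)) : ℕ) = 1 := Nat.mod_eq_of_lt (show 1 < r + 4 by omega)
    have n2 : ((2 : Fin (r + 4)) : ℕ) = 2 := Nat.mod_eq_of_lt (show 2 < r + 4 by omega)
    simp only [n0, n1, n2] at this
    exact this.trans b4
  have hwd : ∀ j : Fin (r + 4), m j ≤ e := fun j => SH.van_le g1.ne_zero g2 (g3 j).1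
  have hself2 : inter e (fun i : Fin (r + 4) => m i) e (fun i : Fin (r + 4) => m i) =
      -(k : ℤ) := hself'
  have hKpos : 0 < interK e (fun i : Fin (r + 4) => m i) := by
    by_contra hcon
    push Not at hcon
    rw [SH.interK_eq] at hcon
    have h4 : 0 ≤ SH.kk e (fun i : Fin (r + 4) => m i) := by linarith
    rw [SH.kk_cast] at h4
    have h5 := SH.red_ip hred hwd (by omega)
    rw [SH.inter_eq] at hself2
    omega
  obtain ⟨κ, hκ⟩ : ∃ κ : ℕ, interK e (fun i : Fin (r + 4) => m i) = κ :=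
    ⟨(interK e (fun i : Fin (r + 4) => m i)).toNat, (Int.toNat_of_nonneg hKpos.le).symm⟩
  have hκ1 : 1 ≤ κ := by omega
  have hK : ∑ i ∈ Finset.range (r + 4), m i = 3 * e + κ := by
    rw [hsumF]
    unfold interK at hκ
    have h1 : ((∑ i : Fin (r + 4), m i : ℕ) : ℤ) = 3 * e + κ := by
      push_cast
      linarith
    exact_mod_cast h1
  have hC2 : ∑ i ∈ Finset.range (r + 4), m i ^ 2 = e ^ 2 + k := by
    rw [hsumF fun i => m i ^ 2]
    unfold inter at hself2
    have h1 : ((∑ i : Fin (r + 4), m i ^ 2 : ℕ) : ℤ) = e ^ 2 + k := by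
      push_cast
      have h2 : ∑ i : Fin (r + 4), (m i : ℤ) ^ 2 = ∑ i : Fin (r + 4), (m i : ℤ) * m i :=
        Finset.sum_congr rfl fun i _ => by ring
      rw [h2]
      linarith
    exact_mod_cast h1
  obtain ⟨q1, q2, q3, q4⟩ := ineq b2 b4 b3 hK hC2
  have q0 := nine_lin b2 b4
  obtain ⟨t, ht⟩ : ∃ t, t = tt (lab e m) := ⟨_, rfl⟩
  obtain ⟨R, hR⟩ : ∃ R, R = ∑ j ∈ Finset.range (r + 4), m (9 + j) := ⟨_, rfl⟩
  rw [← ht] at q0 q1 q3
  rw [← hR] at q1 q4
  have htκ : t < κ := by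
    by_contra hcon
    push Not at hcon
    have := Nat.mul_le_mul_left (m 8) hcon
    omega
  refine ⟨e, m, G, κ, t, R, b1', hG, b2, b3, b4, hself2, by rw [← hKinv, hκ], hκ, q0, hR, q1,
    by omega, by omega, htκ, by omega, fun q hq => ?_, fun hk2 => ?_⟩
  · have h5 : (q + 1) * k ≤ R := by
      have hqs : q < r + 4 := by
        by_contra hcon
        have := b3 (9 + q) (by omega)
        omega
      have h6 : ∑ j ∈ Finset.range (q + 1), m (9 + j) ≤ R := by
        rw [hR]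
        exact Finset.sum_le_sum_of_subset (Finset.range_subset_range.2 (by omega))
      refine le_trans ?_ h6
      have h7 : ∀ j ∈ Finset.range (q + 1), k ≤ m (9 + j) := by
        intro j hj
        have h8 : m (9 + q) ≤ m (9 + j) := b2 (by have := Finset.mem_range.1 hj; omega)
        rcases p1 (9 + j) with h9 | h9
        · omega
        · exact h9
      have h8 := Finset.card_nsmul_le_sum (Finset.range (q + 1)) (fun j => m (9 + j)) k h7
      rwa [Finset.card_range, smul_eq_mul] at h8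
    exact ⟨h5, by omega⟩
  · rw [← hKinv, hκ]
    by_contra hcon
    push Not at hcon
    have h8 : κ ≤ 5 := by
      have : (κ : ℤ) < 6 := hcon
      omega
    rcases enum b2 b4 b3 hK hC2 hk2 hκ1 h8 p1 p2 p3 with ⟨c, hc, c1, c2⟩ | h9
    · exact (tab_none hP hG hc c1 c2).elim
    · omega

end Pool.Agent.Results.MP_d3e5c7_ag.StronglyNegativeCurves
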