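import Mathlib
import Pool.Agent.T6.H98.WO.Gaps
import Pool.Agent.TH167.SH.Conv
import Pool.Agent.TH167.SH.Defs
import Pool.Agent.TH167.SH.Fam

set_option autoImplicit false

/-!
# The Weyl group and the negative curves: gaps of the intersection numbers

Let `X` be the blow-up of the complex projective plane at `s ≥ 4` very general points, and let `C` be
an irreducible curve on `X` with `C ^ 2 = -k < 0` which is not a `(-1)`-curve. Then

* every class conjugate to `C` under the Weyl group (the group generated by the reflections in the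
  real roots) is the class of an irreducible curve on the same surface `X`, so it is the class of `C`
  or its intersection number with `C` is nonnegative;
* `C a = 0` or `(C a) ^ 2 ≥ k` for every real root `a`;
* `C E = 0` or `C E ≥ k` for every `(-1)`-curve `E`; so `C + E` is nef if `E` meets `C`;
* `C N > 0` and `(C N) ^ 2 ≥ k` for every class `N` conjugate to `3 H - E_1 - ⋯ - E_9` (any nine of
  the points).

The curve which a reflection produces is obtained by a quadratic transformation and a field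
automorphism of the complex numbers. The second part is the nonnegativity of the intersection number
of `C` and its reflection, the third one follows from the inequality of Xu and Ein-Lazarsfeld applied
to a conjugate of `C`, and the last one from the product of two reflections, which is a translation.
-/

namespace Pool.Agent.Results.MP_d3e5c7_ag.WeylOrbitGaps

open MvPolynomial Pool.Agent.TH167 Pool.Agent.TH167.SHDefs Pool.Agent.T6.H98.WO

/-- The class `d H - ∑ w l E_l`. -/
def cl {s : ℕ} (d : ℕ) (w : Fin s → ℕ) : ℤ × (Fin s → ℤ) := (d, fun l => w l)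

theorem result (s : ℕ) (hs : 4 ≤ s) :
    ∃ Z : ℕ → MvPolynomial (Fin s × Fin 2) ℂ, (∀ n, Z n ≠ 0) ∧
      ∀ P : Fin s → Fin 2 → ℂ,
        (∀ n, MvPolynomial.eval (fun ij : Fin s × Fin 2 => P ij.1 ij.2) (Z n) ≠ 0) →
        ∀ (d : ℕ) (w : Fin s → ℕ) (C : MvPolynomial (Fin 3) ℂ) (k : ℤ), Curve P C d w →
          ¬ MinusOne P C d w → inter d w d w = -k → 0 < k →
          -- (1) the Weyl group orbit
          (∀ y, Conj (cl d w) y → (y = cl d w ∨ 0 ≤ dot (cl d w) y) ∧
            ∃ (e : ℕ) (u : Fin s → ℕ) (G : MvPolynomial (Fin 3) ℂ), y = cl e u ∧ Curve P G e u) ∧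
          -- (2) the real roots
          (∀ a, Root a → dot (cl d w) a = 0 ∨ k ≤ dot (cl d w) a ^ 2) ∧
          -- (3) the `(-1)`-curves
          (∀ i, w i = 0 ∨ k ≤ w i) ∧
          (∀ (e : ℕ) (u : Fin s → ℕ) (E : MvPolynomial (Fin 3) ℂ), MinusOne P E e u →
            inter d w e u = 0 ∨ k ≤ inter d w e u) ∧
          -- (4) the sum of `C` and a `(-1)`-curve which meets `C` is nef
          (∀ (e : ℕ) (u : Fin s → ℕ) (Γ : MvPolynomial (Fin 3) ℂ), Curve P Γ e u →
            (∀ i, w i ≠ 0 → 0 ≤ inter d w e u + u i) ∧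
            ∀ (e' : ℕ) (u' : Fin s → ℕ) (E : MvPolynomial (Fin 3) ℂ), MinusOne P E e' u' →
              inter d w e' u' ≠ 0 → 0 ≤ inter d w e u + inter e' u' e u) ∧
          -- (5) the classes `3 H - E_1 - ⋯ - E_9` and their conjugates
          ∀ (f : Fin 9 → Fin s) (y : ℤ × (Fin s → ℤ)), Function.Injective f → Conj (nine f) y →
            0 < dot (cl d w) y ∧ k ≤ dot (cl d w) y ^ 2 := by
  obtain ⟨r, rfl⟩ : ∃ r, s = r + 4 := ⟨s - 4, by omega⟩
  obtain ⟨Z, hZ, h⟩ := SH.exists_fam (Fin (r + 4) × Fin 2)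
  refine ⟨Z, hZ, fun P hP0 d w C k hC hne hk hk0 => ?_⟩
  have hP := (h _).1 hP0
  obtain ⟨h1, h2, h3⟩ := SH.curve_iff.1 hC
  have hI : R355.NegOrb.Irr P d w := ⟨⟨C, h1, h2, h3⟩, fun h0 =>
    hne ⟨hC, by rw [SH.inter_eq, h0.1], by rw [SH.interK_eq, h0.2]⟩⟩
  have hO : Orb P (cl d w) := ⟨d, w, rfl, hI⟩
  have hdot : ∀ (e : ℕ) (u : Fin (r + 4) → ℕ) (e' : ℕ) (u' : Fin (r + 4) → ℕ),
      dot (cl e u) (cl e' u') = inter e u e' u' := fun _ _ _ _ => rfl
  have hself : dot (cl d w) (cl d w) = -k := by rw [hdot, hk]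
  have hpair : ∀ (e : ℕ) (u : Fin (r + 4) → ℕ) (Γ : MvPolynomial (Fin 3) ℂ), Curve P Γ e u →
      ∀ (e' : ℕ) (u' : Fin (r + 4) → ℕ) (Γ' : MvPolynomial (Fin 3) ℂ), Curve P Γ' e' u' →
      cl e u ≠ cl e' u' → 0 ≤ inter e u e' u' := by
    intro e u Γ hΓ e' u' Γ' hΓ' hne
    obtain ⟨a1, a2, a3⟩ := SH.curve_iff.1 hΓ
    obtain ⟨b1, b2, b3⟩ := SH.curve_iff.1 hΓ'
    rw [SH.inter_eq]
    refine R355.NegCount.ip_nonneg (SH.inj_of_alg hP) b1 b2 b3 a1 a2 a3 fun h => hne ?_
    have e1 : e = e' := congrArg Prod.fst h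
    have e2 : u = u' := congrArg Prod.snd h
    rw [e1, e2]
  have hmult : ∀ i, w i = 0 ∨ k ≤ w i := by
    intro i
    obtain ⟨-, g⟩ := gap_mult hP hO i
    by_cases h0 : w i = 0
    · exact Or.inl h0
    · right
      have g1 := g (by
        show (w i : ℤ) ≠ 0
        exact_mod_cast h0)
      rw [hself, neg_neg] at g1
      exact g1
  have hexc : ∀ (e : ℕ) (u : Fin (r + 4) → ℕ) (E : MvPolynomial (Fin 3) ℂ), MinusOne P E e u →
      inter d w e u = 0 ∨ k ≤ inter d w e u := by
    intro e u E hE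
    obtain ⟨i, hi⟩ := conj_of_exc hP (SH.minusOne_iff.1 hE)
    obtain ⟨-, g⟩ := gap_conj hP hO hi
    by_cases h0 : inter d w e u = 0
    · exact Or.inl h0
    · right
      have g1 := g h0
      rw [hself, neg_neg] at g1
      exact g1
  refine ⟨fun y hy => ?_, fun a ha => ?_, hmult, hexc, fun e u Γ hΓ => ⟨fun i hi => ?_,
    fun e' u' E hE h0 => ?_⟩, fun f y hf hy => ?_⟩
  · have hOy := hO.conj hP hy
    refine ⟨?_, ?_⟩
    · by_cases h0 : y = cl d w
      · exact Or.inl h0
      · exact Or.inr (orb_pair hP hO hOy (Ne.symm h0))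
    · obtain ⟨e, u, rfl, hJ⟩ := hOy
      obtain ⟨G, g1, g2, g3⟩ := hJ.ex
      exact ⟨e, u, G, rfl, SH.curve_iff.2 ⟨g1, g2, g3⟩⟩
  · by_cases h0 : dot (cl d w) a = 0
    · exact Or.inl h0
    · right
      have g1 := gap_root hP hO ha h0
      rw [hself, neg_neg] at g1
      exact g1
  · by_cases hcl : cl d w = cl e u
    · have e1 : inter d w e u = -k := by rw [← hdot, ← hcl, hself]
      have e2 : (u i : ℤ) = w i := (congrFun (congrArg Prod.snd hcl) i).symm
      rw [e1, e2]
      rcases hmult i with g | g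
      · exact absurd g hi
      · linarith
    · have g1 := hpair d w C hC e u Γ hΓ hcl
      have g2 : (0 : ℤ) ≤ u i := Int.natCast_nonneg _
      linarith
  · have hpos : k ≤ inter d w e' u' := (hexc e' u' E hE).resolve_left h0
    by_cases hcl : cl d w = cl e u
    · have e1 : inter d w e u = -k := by rw [← hdot, ← hcl, hself]
      have e2 : inter e' u' e u = inter d w e' u' := by rw [← hdot, ← hcl, dot_comm, hdot]
      rw [e1, e2]
      linarith
    · have g1 := hpair d w C hC e u Γ hΓ hcl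
      by_cases hcl' : cl e' u' = cl e u
      · have e1 : inter e' u' e u = -1 := by rw [← hdot, ← hcl', hdot, hE.self]
        have e2 : inter d w e u = inter d w e' u' := by rw [← hdot, ← hcl', hdot]
        rw [e1, e2]
        linarith
      · have g2 := hpair e' u' E hE.curve e u Γ hΓ hcl'
        linarith
  · have g := gap_nine_conj hP hO (by rw [hself]; linarith) hf hy
    rw [hself, neg_neg] at g
    exact g

end Pool.Agent.Results.MP_d3e5c7_ag.WeylOrbitGaps
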